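import Pool.Agent.H37.CNV.Stmts

/-!
# Row VGP of the board `cnv`: subgroups of `PSU_3(q)`
-/

set_option autoImplicit false

namespace Pool.CND

section aux

variable {Γ : Type} [Group Γ] [Finite Γ]

theorem vgp_card_comap (I : Subgroup (Γ ⧸ Subgroup.center Γ)) :
    Nat.card (I.comap (QuotientGroup.mk' (Subgroup.center Γ))) =
      Nat.card I * Nat.card (Subgroup.center Γ) := by
  have h1 := (I.comap (QuotientGroup.mk' (Subgroup.center Γ))).card_mul_index
  have h2 := I.card_mul_index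
  have h3 := Subgroup.index_comap_of_surjective I (QuotientGroup.mk'_surjective (Subgroup.center Γ))
  have h4 := (Subgroup.center Γ).card_eq_card_quotient_mul_card_subgroup
  rw [h3, h4, ← h2] at h1
  have h5 : 0 < I.index := Nat.pos_of_ne_zero Subgroup.index_ne_zero_of_finite
  apply Nat.eq_of_mul_eq_mul_right h5
  rw [h1]
  ring

/-- the `p`-part of the preimage of a `p`-subgroup -/
theorem vgp_sylow {p : ℕ} (hp : p.Prime) (hZ : ¬ p ∣ Nat.card (Subgroup.center Γ))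
    (W : Subgroup (Γ ⧸ Subgroup.center Γ)) {r : ℕ} (hW : Nat.card W = p ^ r) :
    ∃ K : Subgroup Γ, Nat.card K = p ^ r ∧ K ⊓ Subgroup.center Γ = ⊥ ∧
      (∀ x ∈ K, (x : Γ ⧸ Subgroup.center Γ) ∈ W) ∧
      (∀ x : Γ, (x : Γ ⧸ Subgroup.center Γ) ∈ W → ∃ y ∈ K, ∃ z ∈ Subgroup.center Γ, x = y * z) ∧
      ∀ x : Γ, (x : Γ ⧸ Subgroup.center Γ) ∈ W → x ^ (p ^ r) = 1 → x ∈ K := by
  classical
  have : Fact p.Prime := ⟨hp⟩
  set π := QuotientGroup.mk' (Subgroup.center Γ) with hπ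
  obtain ⟨K0, hK0⟩ := Sylow.exists_subgroup_card_pow_prime (G := W.comap π) p (n := r)
    (by rw [vgp_card_comap, hW]; exact dvd_mul_right _ _)
  set K : Subgroup Γ := K0.map (W.comap π).subtype with hK
  have hcK : Nat.card K = p ^ r := by
    rw [← hK0]
    exact (Nat.card_congr (K0.equivMapOfInjective _ (W.comap π).subtype_injective).toEquiv).symm
  have hKW : ∀ x ∈ K, (x : Γ ⧸ Subgroup.center Γ) ∈ W := by
    rintro x ⟨y, -, rfl⟩
    exact y.2
  have hbot : K ⊓ Subgroup.center Γ = ⊥ := by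
    refine disjoint_iff.mp (Subgroup.disjoint_of_coprime_natCard ?_)
    rw [hcK]
    exact Nat.Coprime.pow_left _ ((Nat.Prime.coprime_iff_not_dvd hp).2 hZ)
  -- the map `K → W` is bijective
  let φ : K → W := fun x => ⟨(x : Γ), hKW x x.2⟩
  have hφ : Function.Injective φ := by
    intro x y hxy
    have h1 : ((x : Γ) : Γ ⧸ Subgroup.center Γ) = ((y : Γ) : Γ ⧸ Subgroup.center Γ) :=
      congrArg Subtype.val hxy
    have h2 : (x : Γ)⁻¹ * y ∈ Subgroup.center Γ := QuotientGroup.eq.1 h1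
    have h3 : (x : Γ)⁻¹ * y ∈ K ⊓ Subgroup.center Γ := ⟨K.mul_mem (K.inv_mem x.2) y.2, h2⟩
    rw [hbot, Subgroup.mem_bot] at h3
    exact Subtype.ext (inv_mul_eq_one.1 h3)
  have hφs : Function.Surjective φ := by
    have : Nat.card K = Nat.card W := by rw [hcK, hW]
    exact ((Nat.bijective_iff_injective_and_card φ).2 ⟨hφ, this⟩).2
  have hdec : ∀ x : Γ, (x : Γ ⧸ Subgroup.center Γ) ∈ W →
      ∃ y ∈ K, ∃ z ∈ Subgroup.center Γ, x = y * z := by
    intro x hx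
    obtain ⟨y, hy⟩ := hφs ⟨(x : Γ ⧸ Subgroup.center Γ), hx⟩
    have h1 : ((y : Γ) : Γ ⧸ Subgroup.center Γ) = (x : Γ ⧸ Subgroup.center Γ) :=
      congrArg Subtype.val hy
    exact ⟨y, y.2, (y : Γ)⁻¹ * x, QuotientGroup.eq.1 h1, by group⟩
  refine ⟨K, hcK, hbot, hKW, hdec, fun x hx hxp => ?_⟩
  obtain ⟨y, hy, z, hz, rfl⟩ := hdec x hx
  have hy1 : y ^ (p ^ r) = 1 := by
    have h1 : (⟨y, hy⟩ : K) ^ Nat.card K = 1 := pow_card_eq_one'
    rw [hcK] at h1
    exact congrArg Subtype.val h1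
  have hc : Commute y z := (Subgroup.mem_center_iff.1 hz y)
  rw [hc.mul_pow, hy1, one_mul] at hxp
  have hz1 : z ^ Nat.card (Subgroup.center Γ) = 1 := by
    have h1 : (⟨z, hz⟩ : Subgroup.center Γ) ^ Nat.card (Subgroup.center Γ) = 1 := pow_card_eq_one'
    exact congrArg Subtype.val h1
  have h2 : orderOf z ∣ 1 := by
    have h3 : Nat.Coprime (p ^ r) (Nat.card (Subgroup.center Γ)) :=
      Nat.Coprime.pow_left _ ((Nat.Prime.coprime_iff_not_dvd hp).2 hZ)
    rw [← h3]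
    exact Nat.dvd_gcd (orderOf_dvd_of_pow_eq_one hxp) (orderOf_dvd_of_pow_eq_one hz1)
  have h4 : z = 1 := orderOf_eq_one_iff.1 (Nat.dvd_one.1 h2)
  rw [h4, mul_one]
  exact hy

end aux

theorem vgp_thm (hVGW : S_VGW) (hVZC : S_VZC) : S_VGP := by
  intro p F _ f q σ hp hf hq hF hσ W I C n hCW hWI hC hWr hIW hIC hWC hpn hI
  obtain ⟨hfin, hZ⟩ := hVZC p F f q σ hp hf hq hF hσ
  obtain ⟨r, hr⟩ := hWr
  obtain ⟨K, hcK, hbot, hKW, hdec, hKc⟩ := vgp_sylow hp hZ W hr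
  set Z := Subgroup.center (SU3 σ) with hZdef
  have hKp : ∀ x ∈ K, x ^ (p ^ r) = 1 := by
    intro x hx
    have h1 : (⟨x, hx⟩ : K) ^ Nat.card K = 1 := pow_card_eq_one'
    rw [hcK] at h1
    exact congrArg Subtype.val h1
  set I' : Subgroup (SU3 σ) := I.comap (QuotientGroup.mk' Z) with hI'
  set C' : Subgroup (SU3 σ) := C.comap (QuotientGroup.mk' Z) ⊓ K with hC'
  have hconj : ∀ g ∈ I', ∀ w ∈ K, g * w * g⁻¹ ∈ K := by
    intro g hg w hw
    refine hKc _ ?_ ?_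
    · exact hIW g hg w (hKW w hw)
    · rw [conj_pow, hKp w hw, mul_one, mul_inv_cancel]
  have hmain := hVGW p F f q σ hp hf hq hF hσ K I' C' (n * Nat.card Z) inf_le_right
    (fun x hx => hWI (hKW x hx)) ?_ ⟨r, hcK⟩ hconj ?_ ?_ ?_ ?_
  · obtain ⟨⟨A, d, hAK, hab, hpd, hcA⟩, hcomm⟩ := hmain
    refine ⟨⟨A.map (QuotientGroup.mk' Z), d, ?_, ?_, hpd, ?_⟩, ?_⟩
    · rintro _ ⟨a, ha, rfl⟩
      exact hKW a (hAK ha)
    · rintro _ ⟨a, ha, rfl⟩ _ ⟨b, hb, rfl⟩
      rw [← map_mul, ← map_mul, hab a ha b hb]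
    · have h1 : Nat.card (A.map (QuotientGroup.mk' Z)) = Nat.card A := by
        let φ : A → A.map (QuotientGroup.mk' Z) := fun a =>
          ⟨QuotientGroup.mk' Z a, ⟨a, a.2, rfl⟩⟩
        have hφ : Function.Bijective φ := by
          constructor
          · intro x y hxy
            have h1 : ((x : SU3 σ) : SU3 σ ⧸ Z) = ((y : SU3 σ) : SU3 σ ⧸ Z) :=
              congrArg Subtype.val hxy
            have h2 : (x : SU3 σ)⁻¹ * y ∈ Z := QuotientGroup.eq.1 h1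
            have h3 : (x : SU3 σ)⁻¹ * y ∈ K ⊓ Z :=
              ⟨K.mul_mem (K.inv_mem (hAK x.2)) (hAK y.2), h2⟩
            rw [hbot, Subgroup.mem_bot] at h3
            exact Subtype.ext (inv_mul_eq_one.1 h3)
          · rintro ⟨_, a, ha, rfl⟩
            exact ⟨⟨a, ha⟩, rfl⟩
        exact (Nat.card_congr (Equiv.ofBijective φ hφ)).symm
      rw [h1, hr, ← hcK, hcA]
    · intro g hg x hx
      obtain ⟨g', rfl⟩ := QuotientGroup.mk'_surjective Z g
      obtain ⟨x', rfl⟩ := QuotientGroup.mk'_surjective Z x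
      obtain ⟨y, hy, z, hz, hyz⟩ := hdec x' (hCW hx)
      have hxy : QuotientGroup.mk' Z x' = QuotientGroup.mk' Z y := by
        rw [hyz, map_mul]
        have : QuotientGroup.mk' Z z = 1 := (QuotientGroup.eq_one_iff z).2 hz
        rw [this, mul_one]
      rw [hxy] at hx ⊢
      have h1 := hcomm g' hg y ⟨hx, hy⟩
      rw [← map_pow, ← map_mul, ← map_mul, h1]
  · -- `C' ≠ ⊥`
    intro h
    apply hC
    rw [eq_bot_iff]
    intro c hc
    obtain ⟨x', rfl⟩ := QuotientGroup.mk'_surjective Z c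
    obtain ⟨y, hy, z, hz, hyz⟩ := hdec x' (hCW hc)
    have hxy : QuotientGroup.mk' Z x' = QuotientGroup.mk' Z y := by
      rw [hyz, map_mul]
      have : QuotientGroup.mk' Z z = 1 := (QuotientGroup.eq_one_iff z).2 hz
      rw [this, mul_one]
    rw [hxy] at hc ⊢
    have h1 : y ∈ C' := ⟨hc, hy⟩
    rw [h, Subgroup.mem_bot] at h1
    rw [h1, map_one]
    exact Subgroup.one_mem _
  · intro g hg x hx
    exact ⟨hIC g hg x hx.1, hconj g hg x hx.2⟩
  · intro w hw x hx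
    have h1 : (w * x)⁻¹ * (x * w) ∈ Z := by
      have h2 := hWC w (hKW w hw) x hx.1
      exact QuotientGroup.eq.1 h2
    have h3 : (w * x)⁻¹ * (x * w) ∈ K ⊓ Z :=
      ⟨K.mul_mem (K.inv_mem (K.mul_mem hw hx.2)) (K.mul_mem hx.2 hw), h1⟩
    rw [hbot, Subgroup.mem_bot] at h3
    exact inv_mul_eq_one.1 h3
  · intro h
    rcases hp.dvd_mul.1 h with h1 | h1
    · exact hpn h1
    · exact hZ h1
  · rw [hI', vgp_card_comap, hI, hr, hcK]
    ring

end Pool.CND
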