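import Pool.Agent.H37.CNV.Stmts

/-!
# Row VPU of the board `cnv`: `N = q (q - 1)` for `PSU_3(q)`
-/

set_option autoImplicit false

namespace Pool.CND

theorem vpu_thm (hTAM : S_TAM) (hVGP : S_VGP) (hVZC : S_VZC) (hNGD : S_NGD) (hNQD : S_NQD)
    (hUNP : S_UNP) : S_VPU := by
  intro p k F _ _ _ f q σ hp hchar hf hq hF hσ
  obtain ⟨hfin, hZ⟩ := hVZC p F f q σ hp hf hq hF hσ
  have hq2 : 2 ≤ q := by
    rw [hq]
    exact le_trans hp.two_le (Nat.le_self_pow (by omega) p)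
  refine Nat.dvd_antisymm ?_ ?_
  · refine hNGD k _ (q * (q - 1)) (Nat.mul_pos (by omega) (by omega)) fun c hc => ?_
    rcases hTAM p k _ c hp hchar hc with rfl | ⟨W, I, C, n, h1, h2, h3, h4, h5, h6, h7, h8, h9, h10⟩
    · exact ⟨0, by simp⟩
    · obtain ⟨⟨A, d, hA, hab, ⟨m, hm⟩, hcard⟩, hg⟩ :=
        hVGP p F f q σ hp hf hq hF hσ W I C n h1 h2 h3 h4 h5 h6 h7 h8 h9
      obtain ⟨z, hz⟩ := h10 A d (q - 1) hA hab hcard hg
      refine ⟨m * z, ?_⟩
      have h11 : ((q * (q - 1) : ℕ) : ℚ) = (m : ℚ) * ((p ^ d * (q - 1) : ℕ) : ℚ) := by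
        have : q * (q - 1) = m * (p ^ d * (q - 1)) := by
          have h12 : q * (q - 1) = (p ^ d * m) * (q - 1) := by rw [← hm]
          rw [h12]
          ring
        rw [this]
        push_cast
        ring
      rw [h11, mul_assoc, hz]
      push_cast
      ring
  · exact (hUNP p k F f q σ hp hchar hf hq hF hσ).trans
      (hNQD p k (SU3 σ) (Subgroup.center (SU3 σ)) hp hchar hZ)

end Pool.CND
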