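import Pool.Agent.H37.CNV.Stmts

/-!
# Row VZC of the board `cnv`: the centre of `SU_3(q)`
-/

set_option autoImplicit false

namespace Pool.CND

open Finset Matrix

/-- an element `y ≠ 0` with `y ^ q = - y` -/
theorem vzc_exists {F : Type} [Field F] [Finite F] {q : ℕ} (σ : F →+* F) (hq : 2 ≤ q)
    (hF : Nat.card F = q ^ 2) (hσ : ∀ a, σ a = a ^ q) : ∃ y : F, y ≠ 0 ∧ σ y = -y := by
  classical
  obtain ⟨_⟩ := nonempty_fintype F
  by_contra hcon
  push Not at hcon
  let φ : F → F := fun y => σ y + y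
  have hφ : Function.Injective φ := by
    intro x y hxy
    by_contra hne
    refine hcon (x - y) (sub_ne_zero.2 hne) ?_
    have : σ x + x = σ y + y := hxy
    rw [map_sub]
    linear_combination this
  have hφs : Function.Surjective φ := Finite.surjective_of_injective hφ
  have hpow : ∀ y : F, y ^ (q ^ 2) = y := by
    intro y
    rw [← hF, Nat.card_eq_fintype_card]
    exact FiniteField.pow_card y
  have hfix : ∀ x : F, x ^ q = x := by
    intro x
    obtain ⟨y, rfl⟩ := hφs x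
    change (σ y + y) ^ q = σ y + y
    rw [← hσ, map_add, hσ (σ y), hσ y, ← pow_mul, ← pow_two, hpow]
    ring
  -- at most `q` roots
  have hP : (Polynomial.X ^ q - Polynomial.X : Polynomial F) ≠ 0 :=
    FiniteField.X_pow_card_sub_X_ne_zero F (by omega)
  have h1 : (univ : Finset F).card ≤ (Polynomial.X ^ q - Polynomial.X : Polynomial F).natDegree := by
    refine le_trans (le_trans (Finset.card_le_card ?_) (Multiset.toFinset_card_le
      (Polynomial.X ^ q - Polynomial.X : Polynomial F).roots)) (Polynomial.card_roots' _)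
    intro x _
    rw [Multiset.mem_toFinset, Polynomial.mem_roots hP]
    simp [Polynomial.IsRoot, hfix x]
  rw [FiniteField.X_pow_card_sub_X_natDegree_eq F (by omega), Finset.card_univ,
    ← Nat.card_eq_fintype_card, hF] at h1
  nlinarith

theorem vzc_thm : S_VZC := by
  classical
  intro p F _ f q σ hp hf hq hF hσ
  have hq2 : 2 ≤ q := by
    rw [hq]
    exact le_trans hp.two_le (Nat.le_self_pow (by omega) p)
  have hfinF : Finite F := Nat.finite_of_card_ne_zero (by rw [hF]; positivity)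
  obtain ⟨_⟩ := nonempty_fintype F
  have hfin : Finite (SU3 σ) := inferInstance
  refine ⟨hfin, fun hdvd => ?_⟩
  have : Fact p.Prime := ⟨hp⟩
  -- the characteristic
  have hchar : CharP F p := by
    obtain ⟨r, hr⟩ := CharP.exists F
    obtain ⟨n, hrp, hn⟩ := FiniteField.card F r
    have h1 : r ∣ p := by
      have h2 : r ∣ p ^ (f * 2) := by
        rw [pow_mul, ← hq, ← hF, Nat.card_eq_fintype_card, hn]
        exact dvd_pow_self _ n.ne_zero
      exact (hrp.dvd_of_dvd_pow h2)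
    rwa [← (Nat.prime_dvd_prime_iff_eq hrp hp).1 h1]
  obtain ⟨z, hz⟩ := exists_prime_orderOf_dvd_card' p hdvd
  obtain ⟨y, hy0, hy⟩ := vzc_exists σ hq2 hF hσ
  have hzc : ∀ g : SU3 σ, g * (z : SU3 σ) = z * g := fun g => Subgroup.mem_center_iff.1 z.2 g
  -- two unitary elements
  have hu1 : (!![1, 0, y; 0, 1, 0; 0, 0, 1] : Matrix (Fin 3) (Fin 3) F).det = 1 := by
    simp [Matrix.det_fin_three]
  have hl1 : (!![1, 0, 0; 0, 1, 0; y, 0, 1] : Matrix (Fin 3) (Fin 3) F).det = 1 := by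
    simp [Matrix.det_fin_three]
  have hu2 : (⟨!![1, 0, y; 0, 1, 0; 0, 0, 1], hu1⟩ : Matrix.SpecialLinearGroup (Fin 3) F) ∈
      SU3 σ := by
    show !![1, 0, y; 0, 1, 0; 0, 0, 1] * J3 F * ((!![1, 0, y; 0, 1, 0; 0, 0, 1] :
      Matrix (Fin 3) (Fin 3) F).map σ)ᵀ = J3 F
    ext i j
    fin_cases i <;> fin_cases j <;>
      simp [J3, Matrix.mul_apply, Fin.sum_univ_three, hy]
  have hl2 : (⟨!![1, 0, 0; 0, 1, 0; y, 0, 1], hl1⟩ : Matrix.SpecialLinearGroup (Fin 3) F) ∈
      SU3 σ := by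
    show !![1, 0, 0; 0, 1, 0; y, 0, 1] * J3 F * ((!![1, 0, 0; 0, 1, 0; y, 0, 1] :
      Matrix (Fin 3) (Fin 3) F).map σ)ᵀ = J3 F
    ext i j
    fin_cases i <;> fin_cases j <;>
      simp [J3, Matrix.mul_apply, Fin.sum_univ_three, hy]
  set m : Matrix (Fin 3) (Fin 3) F := (z : SU3 σ).1.1 with hm
  have e1 : (!![1, 0, y; 0, 1, 0; 0, 0, 1] : Matrix (Fin 3) (Fin 3) F) * m =
      m * !![1, 0, y; 0, 1, 0; 0, 0, 1] :=
    congrArg (fun g : SU3 σ => g.1.1) (hzc ⟨_, hu2⟩)
  have e2 : (!![1, 0, 0; 0, 1, 0; y, 0, 1] : Matrix (Fin 3) (Fin 3) F) * m =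
      m * !![1, 0, 0; 0, 1, 0; y, 0, 1] :=
    congrArg (fun g : SU3 σ => g.1.1) (hzc ⟨_, hl2⟩)
  have f1 : ∀ i j, ((!![1, 0, y; 0, 1, 0; 0, 0, 1] : Matrix (Fin 3) (Fin 3) F) * m) i j =
      (m * !![1, 0, y; 0, 1, 0; 0, 0, 1]) i j := fun i j => by rw [e1]
  have f2 : ∀ i j, ((!![1, 0, 0; 0, 1, 0; y, 0, 1] : Matrix (Fin 3) (Fin 3) F) * m) i j =
      (m * !![1, 0, 0; 0, 1, 0; y, 0, 1]) i j := fun i j => by rw [e2]
  have a1 := f1 0 0
  have a2 := f1 0 1
  have a3 := f1 0 2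
  have a4 := f1 1 2
  have b1 := f2 0 0
  have b2 := f2 1 0
  have b3 := f2 2 1
  simp [Matrix.mul_apply, Fin.sum_univ_three, hy0] at a1 a2 a3 a4 b1 b2 b3
  have a5 : m 2 2 = m 0 0 := by
    have : y * (m 2 2 - m 0 0) = 0 := by linear_combination a3
    rcases mul_eq_zero.1 this with h | h
    · exact absurd h hy0
    · exact sub_eq_zero.1 h
  have hdiag : m = Matrix.diagonal ![m 0 0, m 1 1, m 0 0] := by
    ext i j
    fin_cases i <;> fin_cases j <;> simp [a1, a2, a4, a5, b1, b2, b3]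
  have hzp : (z : SU3 σ) ^ p = 1 := by
    have h1 : z ^ p = 1 := by rw [← hz]; exact pow_orderOf_eq_one z
    rw [← Subgroup.coe_pow, h1, Subgroup.coe_one]
  have hmp : m ^ p = 1 := congrArg (fun g : SU3 σ => g.1.1) hzp
  rw [hdiag, Matrix.diagonal_pow] at hmp
  have root : ∀ c : F, c ^ p = 1 → c = 1 := by
    intro c hc
    have h1 : (c - 1) ^ p = 0 := by
      rw [sub_pow_char, hc, one_pow, sub_self]
    exact sub_eq_zero.1 (pow_eq_zero_iff hp.ne_zero |>.1 h1)
  have c0 := congrFun (congrFun hmp 0) 0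
  have c1 := congrFun (congrFun hmp 1) 1
  simp at c0 c1
  have c0' := root _ c0
  have c1' := root _ c1
  have hm1 : m = 1 := by
    rw [hdiag, c0', c1']
    ext i j
    fin_cases i <;> fin_cases j <;> simp
  have hz1 : z = 1 := by
    apply Subtype.ext
    apply Subtype.ext
    apply Subtype.ext
    exact hm1
  rw [hz1, orderOf_one] at hz
  exact hp.one_lt.ne hz

end Pool.CND
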